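import Pool.Agent.Lib.MP_a785f2_an.Example

open Pool.Agent.Lib.MP_a785f2_an

/-- For every `n ≥ 3` there are `u ∈ W^{1,n}(B^n, ℝ^{n+1})` (with weak gradient `G`) and an
antisymmetric potential `Ω ∈ L^n(B^n)` such that `u` is a weak solution of the `n`-Laplace system
with potential `Ω` and has no continuous representative. -/
theorem Pool.Agent.Results.MP_a785f2_an.Counterexample.result (n : ℕ) (hn : 3 ≤ n) :
    ∃ (u : Fin (n + 1) → E n → ℝ) (G : Fin (n + 1) → Fin n → E n → ℝ)
      (Ω : Fin n → Fin (n + 1) → Fin (n + 1) → E n → ℝ),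
      IsW1n u G ∧ IsAntisymPotential Ω ∧ IsWeakSolution G Ω ∧ ¬ HasContinuousRep u :=
  ⟨uu n, GG n, Om n, isW1n hn, isAntisymPotential hn, isWeakSolution hn,
    not_hasContinuousRep (by omega)⟩
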