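import Pool.Agent.Lib.MP_a785f2_an.LZ.Tr

open MeasureTheory Pool.Agent.Lib.MP_a785f2_an

/-- Let `n ≥ 3`, let `N` be a compact `C^2` submanifold without boundary of a Euclidean space, and
let `u ∈ W^{1,n}(B^n, N)`, with weak gradient `G`, solve `-div(|∇u|^(n-2) ∇u) = F` weakly, where
`F` is integrable and its part tangent to `N` at `u(x)` is bounded by `Λ` times the sum of the
absolute values of the `n × n` minors of `∇u`. Then `u` has a continuous representative.
The case `Λ = 0` is the case of weakly `n`-harmonic maps. -/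
theorem Pool.Agent.Results.MP_a785f2_an.HarmonicMaps.result (n : ℕ) (hn : 3 ≤ n) (m : ℕ)
    (N : Set (E m)) (hc : IsCompact N) (hN : IsC2Submanifold N)
    (u : Fin m → E n → ℝ) (G : Fin m → Fin n → E n → ℝ) (F : Fin m → E n → ℝ) (Λ : ℝ)
    (hu : IsW1n u G) (hv : ∀ᵐ x ∂(ballMeasure n), pt u x ∈ N)
    (hF : ∀ i, Integrable (F i) (ballMeasure n))
    (ht : ∀ᵐ x ∂(ballMeasure n), ∀ τ ∈ tangentConeAt ℝ N (pt u x), |∑ i, F i x * τ i| ≤
      Λ * (∑ I : Fin n → Fin m, |(Matrix.of fun a α => G (I a) α x).det|) * ‖τ‖)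
    (he : ∀ i φ, IsTest φ →
      ∫ x, ∑ α, gradNorm G x ^ (n - 2) * G i α x * pd α φ x ∂(ballMeasure n) =
        ∫ x, F i x * φ x ∂(ballMeasure n)) :
    HasContinuousRep u :=
  LY.red (by omega) (LZ.coreD hn) N hc hN u G F Λ hu hv hF ht he

/-- The special case (b) of the problem file: for every `n ≥ 3`, weakly `n`-harmonic maps into a
compact `C^2` submanifold without boundary are continuous. -/
theorem Pool.Agent.Results.MP_a785f2_an.HarmonicMaps.harmonic_case (n : ℕ) (hn : 3 ≤ n) (m : ℕ)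
    (N : Set (E m)) (hc : IsCompact N) (hN : IsC2Submanifold N)
    (u : Fin m → E n → ℝ) (G : Fin m → Fin n → E n → ℝ) (hu : IsW1n u G)
    (hh : IsWeaklyHarmonic N u G) : HasContinuousRep u := by
  obtain ⟨hv, F, hF, ht, he⟩ := hh
  refine Pool.Agent.Results.MP_a785f2_an.HarmonicMaps.result n hn m N hc hN u G F 0 hu hv hF ?_ he
  filter_upwards [ht] with x hx τ hτ
  rw [hx τ hτ, abs_zero, zero_mul, zero_mul]
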