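import Pool.Agent.Lib.MP_a785f2_an.OM.Core
import Pool.Agent.Lib.MP_a785f2_an.OM.Top
import Pool.Agent.Lib.MP_a785f2_an.HS.HSys

open MeasureTheory Pool.Agent.Lib.MP_a785f2_an

/-- Let `n ≥ 3`, let the functions `w^k_{ij}` on `ℝ^m` be bounded, Lipschitz and antisymmetric in
`i, j`, and let `u ∈ W^{1,n}(B^n, ℝ^m)`, with weak gradient `G`, solve
`-div(|∇u|^(n-2) ∇u^i) = ∑_{j,α} Ω^α_{ij} |∇u|^(n-2) ∂_α u^j + h^i` in the sense of distributions,
where `Ω^α_{ij} = ∑_k w^k_{ij}(u) ∂_α u^k` and each `h^i` is measurable and bounded by a constant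
times the sum of the absolute values of the `n × n` minors of `∇u`.
Then `u` has a continuous representative. -/
theorem Pool.Agent.Results.MP_a785f2_an.LipschitzForms.result (n m : ℕ) (hn : 3 ≤ n)
    (w : Fin m → Fin m → Fin m → E m → ℝ) (Λ : ℝ)
    (hb : ∀ k i j y, |w k i j y| ≤ Λ)
    (hl : ∀ k i j y y', |w k i j y - w k i j y'| ≤ Λ * ‖y - y'‖)
    (hs : ∀ k i j y, w k j i y = -w k i j y)
    (u : Fin m → E n → ℝ) (G : Fin m → Fin n → E n → ℝ) (h : Fin m → E n → ℝ) (hu : IsW1n u G)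
    (hm : ∀ i, AEStronglyMeasurable (h i) (ballMeasure n))
    (hh : ∀ i, ∀ᵐ x ∂(ballMeasure n), |h i x| ≤
      Λ * ∑ I : Fin n → Fin m, |(Matrix.of fun a α => G (I a) α x).det|)
    (he : ∀ i φ, IsTest φ →
      ∫ x, ∑ α, gradNorm G x ^ (n - 2) * G i α x * pd α φ x ∂(ballMeasure n) =
        ∫ x, ((∑ j, ∑ α, (∑ k, w k i j (pt u x) * G k α x) * (gradNorm G x ^ (n - 2) * G j α x)) +
          h i x) * φ x ∂(ballMeasure n)) : HasContinuousRep u :=
  OM.top (by omega) (OM.coreT hn) w Λ hb hl hs u G h hu hm hh he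

/-- The case `h = 0`: the system of the problem file with the potential `Ω = w(u) ∇u`. -/
theorem Pool.Agent.Results.MP_a785f2_an.LipschitzForms.potential_case (n m : ℕ) (hn : 3 ≤ n)
    (w : Fin m → Fin m → Fin m → E m → ℝ) (Λ : ℝ)
    (hb : ∀ k i j y, |w k i j y| ≤ Λ)
    (hl : ∀ k i j y y', |w k i j y - w k i j y'| ≤ Λ * ‖y - y'‖)
    (hs : ∀ k i j y, w k j i y = -w k i j y)
    (u : Fin m → E n → ℝ) (G : Fin m → Fin n → E n → ℝ) (hu : IsW1n u G)
    (he : IsWeakSolution G fun α i j x => ∑ k, w k i j (pt u x) * G k α x) :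
    HasContinuousRep u :=
  Pool.Agent.Results.MP_a785f2_an.LipschitzForms.result n m hn w Λ hb hl hs u G (fun _ _ => 0) hu
    (fun _ => aestronglyMeasurable_const)
    (fun i => ae_of_all _ fun x => by
      rw [abs_zero]
      exact mul_nonneg ((abs_nonneg _).trans (hb i i i 0))
        (Finset.sum_nonneg fun _ _ => abs_nonneg _))
    fun i φ hφ => by simpa only [add_zero] using he i φ hφ

/-- The special case (a) of the problem file, word for word: the `H`-system
`-Δ_n u = H(u) ∂_1 u × ⋯ × ∂_n u` with `H` bounded and measurable. The `i`-th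
coordinate of the cross product is the determinant with rows `∂_1 u, ..., ∂_n u, e_i`. -/
theorem Pool.Agent.Results.MP_a785f2_an.LipschitzForms.hsystem_case (n : ℕ) (hn : 3 ≤ n)
    (u : Fin (n + 1) → E n → ℝ) (G : Fin (n + 1) → Fin n → E n → ℝ) (hu : IsW1n u G)
    (H : E (n + 1) → ℝ) (hH : Measurable H) (Λ : ℝ) (hb : ∀ y, |H y| ≤ Λ)
    (he : ∀ i φ, IsTest φ →
      ∫ x, ∑ α, gradNorm G x ^ (n - 2) * G i α x * pd α φ x ∂(ballMeasure n) =
        ∫ x, H (WithLp.toLp 2 fun j => u j x) *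
          (Matrix.of (Fin.snoc (fun α j => G j α x) (Pi.single i 1) :
            Fin (n + 1) → Fin (n + 1) → ℝ)).det * φ x ∂(ballMeasure n)) :
    HasContinuousRep u :=
  hsystem u G (fun f Λ hf hb he =>
    Pool.Agent.Results.MP_a785f2_an.LipschitzForms.result n (n + 1) hn (fun _ _ _ _ => 0) |Λ|
      (fun _ _ _ _ => by simp) (fun _ _ _ _ _ => by simp; positivity) (fun _ _ _ _ => by simp)
      u G f hu hf (fun i => (hb i).mono fun _ hx => hx.trans (mul_le_mul_of_nonneg_right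
        (le_abs_self Λ) (Finset.sum_nonneg fun _ _ => abs_nonneg _)))
      fun i φ hφ => by simpa only [zero_mul, Finset.sum_const_zero, zero_add] using he i φ hφ)
    hu H hH Λ hb he
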