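import Pool.Agent.Lib.MP_a785f2_an.HS.Top
import Pool.Agent.Lib.MP_a785f2_an.HS.HSys

open MeasureTheory Pool.Agent.Lib.MP_a785f2_an

/-- Let `n ≥ 2` and let `u ∈ W^{1,n}(B^n, ℝ^m)`, with weak gradient `G`, solve
`-div(|∇u|^(n-2) ∇u^i) = f^i` in the sense of distributions, where each `f^i` is measurable and
bounded by a constant times the sum of the absolute values of the `n × n` minors of `∇u`.
Then `u` has a continuous representative. -/
theorem Pool.Agent.Results.MP_a785f2_an.MinorSystems.result (n m : ℕ) (hn : 2 ≤ n)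
    (u : Fin m → E n → ℝ) (G : Fin m → Fin n → E n → ℝ) (f : Fin m → E n → ℝ) (Λ : ℝ)
    (hu : IsW1n u G) (hf : ∀ i, AEStronglyMeasurable (f i) (ballMeasure n))
    (hb : ∀ i, ∀ᵐ x ∂(ballMeasure n), |f i x| ≤
      Λ * ∑ I : Fin n → Fin m, |(Matrix.of fun a α => G (I a) α x).det|)
    (he : ∀ i φ, IsTest φ →
      ∫ x, ∑ α, gradNorm G x ^ (n - 2) * G i α x * pd α φ x ∂(ballMeasure n) =
        ∫ x, f i x * φ x ∂(ballMeasure n)) :
    HasContinuousRep u :=
  HS.continuity hn u G f Λ hu hf hb he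

/-- The special case (a) of the problem file, word for word: the `H`-system
`-Δ_n u = H(u) ∂_1 u × ⋯ × ∂_n u` with `H` bounded and measurable. The `i`-th
coordinate of the cross product is the determinant with rows `∂_1 u, ..., ∂_n u, e_i`. -/
theorem Pool.Agent.Results.MP_a785f2_an.MinorSystems.hsystem_case (n : ℕ) (hn : 2 ≤ n)
    (u : Fin (n + 1) → E n → ℝ) (G : Fin (n + 1) → Fin n → E n → ℝ) (hu : IsW1n u G)
    (H : E (n + 1) → ℝ) (hH : Measurable H) (Λ : ℝ) (hb : ∀ y, |H y| ≤ Λ)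
    (he : ∀ i φ, IsTest φ →
      ∫ x, ∑ α, gradNorm G x ^ (n - 2) * G i α x * pd α φ x ∂(ballMeasure n) =
        ∫ x, H (WithLp.toLp 2 fun j => u j x) *
          (Matrix.of (Fin.snoc (fun α j => G j α x) (Pi.single i 1) :
            Fin (n + 1) → Fin (n + 1) → ℝ)).det * φ x ∂(ballMeasure n)) :
    HasContinuousRep u :=
  hsystem u G (fun f Λ hf hb he =>
    Pool.Agent.Results.MP_a785f2_an.MinorSystems.result n (n + 1) hn u G f Λ hu hf hb he)
    hu H hH Λ hb he
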