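import Pool.Agent.Lib.MP_a785f2_an.N4.Four

open MeasureTheory Pool.Agent.Lib.MP_a785f2_an

/-- In dimensions three and four, weak solutions of the system with an antisymmetric potential of
the form `Ω_{ij} = ∑_l a^l_{ij}(u) ∇(b^l ∘ u)` are continuous, when the `a^l_{ij}` are bounded,
`C^1` with bounded derivative and antisymmetric in `i, j`, and the `b^l` are `C^1` with bounded
derivative. -/
theorem Pool.Agent.Results.MP_a785f2_an.PulledBack.result (n : ℕ) (h3 : 3 ≤ n) (h4 : n ≤ 4)
    (m k : ℕ)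
    (a : Fin k → Fin m → Fin m → E m → ℝ) (b : Fin k → E m → ℝ)
    (ha : ∀ l i j, IsC1Lip (a l i j) ∧ ∃ L : ℝ, ∀ y, |a l i j y| ≤ L)
    (hs : ∀ l i j y, a l j i y = -a l i j y) (hb : ∀ l, IsC1Lip (b l))
    (u : Fin m → E n → ℝ) (G : Fin m → Fin n → E n → ℝ) (hu : IsW1n u G)
    (he : IsWeakSolution G (pullPotential a b u G)) : HasContinuousRep u :=
  NH.pull (by omega) (N4.core_three_or_four (by omega)) a b ha hs hb u G hu he
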